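import Pool.Agent.Run7.h473.MD.Iface
import Pool.Agent.N879.QM.Avg

set_option autoImplicit false

/-! # Piece BR1: the positive fundamental discriminants `≥ 2` are the conductors of the even real
primitive characters -/

namespace Pool.Agent.Run7.h205.MD

open Pool.Agent.Q48.MDS Pool.Agent.N879.QM Pool.Agent.Run7.h473.MD
open Pool.Agent.H306R2.RG (FD F8 F4 F1 Fam cf jo)

theorem is_of (φ : FD) (hφ : φ = F8 1 ∨ φ = F4 1 ∨ φ = F1 1 1 ∨ φ = F1 1 5) (d : ℕ) (hd : φ.A d)
    (hsq : Squarefree d) : Is 1 (φ.r * d) := by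
  obtain ⟨-, -, h2, χ, h3, -⟩ := Avg.rp_of 1 (Or.inl rfl) φ hφ d hd hsq
  exact ⟨h2, χ, h3⟩

theorem not_sq {d : ℕ} (hd : 2 ≤ d) (hsq : Squarefree d) : ¬ IsSquare (1 * (d : ℤ)) := by
  rw [one_mul]
  rintro ⟨r, hr⟩
  have h1 : d = r.natAbs * r.natAbs := by
    have := congrArg Int.natAbs hr
    rwa [Int.natAbs_mul, Int.natAbs_natCast] at this
  have h2 : IsUnit r.natAbs := hsq r.natAbs ⟨1, by rw [mul_one]; exact h1⟩
  rw [Nat.isUnit_iff] at h2
  rw [h2] at h1
  omega

theorem t_BR1 : S_BR1 := by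
  intro d hd
  constructor
  · rintro (⟨h1, h2⟩ | ⟨m, rfl, h1, h2⟩)
    · have h3 : d % 8 = 1 ∨ d % 8 = 5 := by omega
      rcases h3 with h3 | h3
      · have h := is_of (F1 1 1) (by simp) d ⟨by omega, not_sq hd h2⟩ h2
        have e : (F1 1 1).r * d = d := one_mul d
        rwa [e] at h
      · have h := is_of (F1 1 5) (by simp) d ⟨by omega, not_sq hd h2⟩ h2
        have e : (F1 1 5).r * d = d := one_mul d
        rwa [e] at h
    · rcases h1 with h1 | h1
      · obtain ⟨k, rfl⟩ : ∃ k, m = 2 * k := ⟨m / 2, by omega⟩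
        have h3 : Odd k := Nat.odd_iff.2 (by omega)
        have h4 : Squarefree k := h2.squarefree_of_dvd (Dvd.intro_left 2 rfl)
        have h := is_of (F8 1) (by simp) k h3 h4
        have e : (F8 1).r * k = 4 * (2 * k) := by
          show 8 * k = 4 * (2 * k)
          ring
        rwa [e] at h
      · have h3 : (F4 1).A m := by
          show (1 * (m : ℤ)) % 4 = 3
          omega
        exact is_of (F4 1) (by simp) m h3 h2
  · rintro ⟨-, χ, hχ⟩
    obtain ⟨i, e, h1, h2, h3⟩ := Avg.fam_surj 1 d hd χ hχ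
    fin_cases i
    · right
      have h4 : Odd e := h1
      have h5 : d = 8 * e := h3
      refine ⟨2 * e, by omega, Or.inl ?_, ?_⟩
      · obtain ⟨k, hk⟩ := h4
        omega
      · rw [Nat.squarefree_mul_iff]
        exact ⟨Nat.coprime_two_left.2 h4, Nat.prime_two.squarefree, h2⟩
    · right
      have h4 : (1 * (e : ℤ)) % 4 = 3 := h1
      have h5 : d = 4 * e := h3
      exact ⟨e, h5, Or.inr (by omega), h2⟩
    · left
      have h4 : (1 * (e : ℤ)) % 8 = 1 := h1.1
      have h5 : d = 1 * e := h3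
      rw [one_mul] at h5
      subst h5
      exact ⟨by omega, h2⟩
    · left
      have h4 : (1 * (e : ℤ)) % 8 = 5 := h1.1
      have h5 : d = 1 * e := h3
      rw [one_mul] at h5
      subst h5
      exact ⟨by omega, h2⟩

end Pool.Agent.Run7.h205.MD
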