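import Pool.Agent.Run7.h473.MD.Iface
import Pool.Agent.N879.QM.Avg
import Pool.Agent.N879.QM.Uni

set_option autoImplicit false

/-! # Piece BR2: the values of the even real primitive characters are Kronecker symbols -/

namespace Pool.Agent.Run7.h205.MD

open Pool.Agent.Q48.MDS Pool.Agent.N879.QM Pool.Agent.Run7.h473.MD
open Pool.Agent.H306R2.RG (FD F8 F4 F1 Fam cf jo)
open Pool.Agent.H306R2.RZ (js)

theorem jac4 (a : ℤ) {m : ℕ} (hm : Odd m) : jacobiSym (2 ^ 2 * a) m = jacobiSym a m := by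
  have h : Int.gcd 2 (m : ℤ) = 1 := by
    have h1 : Nat.Coprime 2 m := Nat.coprime_two_left.2 hm
    have h2 : Int.gcd ((2 : ℕ) : ℤ) (m : ℤ) = 1 := by
      rw [Int.gcd_natCast_natCast]
      exact h1
    exact_mod_cast h2
  rw [jacobiSym.mul_left, jacobiSym.pow_left, jacobiSym.sq_one h, one_mul]

theorem kron_cf (φ : FD) (e n : ℕ) (hn : 1 ≤ n) (h2 : ((kronTwo (φ.r * e) : ℤ) : ℝ) = φ.η)
    (hj : ∀ m : ℕ, Odd m → jacobiSym ((φ.r * e : ℕ) : ℤ) m = jacobiSym (φ.e * (e : ℤ)) m) :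
    ((kron (φ.r * e) n : ℤ) : ℂ) = ((cf φ e n : ℝ) : ℂ) := by
  have ho : Odd (n / 2 ^ n.factorization 2) := Avg.odd_part (by omega)
  have h : ((kron (φ.r * e) n : ℤ) : ℝ) = cf φ e n := by
    unfold kron cf jo js
    rw [if_pos ho, ← Nat.factorization_def n Nat.prime_two, ← h2, hj _ ho]
    push_cast
    rfl
  rw [← h]
  push_cast
  rfl

theorem vl_cf (φ : FD) (hφ : φ = F8 1 ∨ φ = F4 1 ∨ φ = F1 1 1 ∨ φ = F1 1 5) (e n : ℕ) (hA : φ.A e)
    (hsq : Squarefree e) (hn : 1 ≤ n) : vl 1 (φ.r * e) n = ((cf φ e n : ℝ) : ℂ) := by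
  obtain ⟨-, -, h2, χ, h3, h4⟩ := Avg.rp_of 1 (Or.inl rfl) φ hφ e hA hsq
  rw [Avg.vl_eq t_UNI h2 χ h3, h4 n (by omega)]

theorem t_BR2 : S_BR2 := by
  rintro d n ⟨hd, χ, hχ⟩ hn
  obtain ⟨i, e, h1, h2, h3⟩ := Avg.fam_surj 1 d hd χ hχ
  rw [h3, vl_cf _ (Avg.fam_mem 1 i) e n h1 h2 hn]
  apply kron_cf _ e n hn
  · fin_cases i
    · show ((kronTwo (8 * e) : ℤ) : ℝ) = 0
      have : kronTwo (8 * e) = 0 := by
        unfold kronTwo
        rw [if_neg (by omega), if_neg (by omega)]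
      rw [this, Int.cast_zero]
    · show ((kronTwo (4 * e) : ℤ) : ℝ) = 0
      have h4 : (1 * (e : ℤ)) % 4 = 3 := h1
      have : kronTwo (4 * e) = 0 := by
        unfold kronTwo
        rw [if_neg (by omega), if_neg (by omega)]
      rw [this, Int.cast_zero]
    · have h4 : (1 * (e : ℤ)) % 8 = 1 := h1.1
      show ((kronTwo (1 * e) : ℤ) : ℝ) = if (1 : ℤ) = 1 then 1 else -1
      have : kronTwo (1 * e) = 1 := by
        unfold kronTwo
        rw [if_pos (by omega)]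
      rw [this, if_pos rfl, Int.cast_one]
    · have h4 : (1 * (e : ℤ)) % 8 = 5 := h1.1
      show ((kronTwo (1 * e) : ℤ) : ℝ) = if (5 : ℤ) = 1 then 1 else -1
      have : kronTwo (1 * e) = -1 := by
        unfold kronTwo
        rw [if_neg (by omega), if_pos (by omega)]
      rw [this, if_neg (by norm_num)]
      norm_num
  · intro m hm
    fin_cases i
    · show jacobiSym ((8 * e : ℕ) : ℤ) m = jacobiSym (2 * 1 * (e : ℤ)) m
      rw [← jac4 (2 * 1 * (e : ℤ)) hm]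
      congr 1
      push_cast
      ring
    · show jacobiSym ((4 * e : ℕ) : ℤ) m = jacobiSym (1 * (e : ℤ)) m
      rw [← jac4 (1 * (e : ℤ)) hm]
      congr 1
      push_cast
      ring
    · show jacobiSym ((1 * e : ℕ) : ℤ) m = jacobiSym (1 * (e : ℤ)) m
      congr 1
    · show jacobiSym ((1 * e : ℕ) : ℤ) m = jacobiSym (1 * (e : ℤ)) m
      congr 1

end Pool.Agent.Run7.h205.MD
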